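import Mathlib.Data.Fintype.Prod
import Mathlib.Algebra.BigOperators.Fin
import Mathlib.Algebra.BigOperators.Group.Finset.Basic
import Mathlib.Tactic

/-!
# Bi-heavy vertices: the gadget and its local lemma

The gadget is a triangulated disk with outer vertices `0, 1, 2` and `20` inner vertices.
-/

namespace Pool.Agent.Q272.BH

open Finset

/-- the inner faces of the gadget. -/
def FL : List (Fin 23 × Fin 23 × Fin 23) :=
  [(0, 2, 3), (0, 3, 5), (0, 4, 1), (0, 5, 4), (1, 4, 6), (1, 6, 7), (1, 7, 2), (2, 7, 8),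
   (2, 8, 3), (3, 8, 9), (3, 9, 5), (4, 5, 10), (4, 10, 6), (5, 9, 10), (6, 10, 11), (6, 11, 7),
   (7, 11, 8), (8, 11, 13), (8, 12, 16), (8, 13, 14), (8, 14, 12), (8, 15, 17), (8, 16, 15),
   (8, 17, 9), (9, 17, 10), (10, 13, 11), (10, 15, 18), (10, 17, 15), (10, 18, 19), (10, 19, 20),
   (10, 20, 13), (12, 14, 22), (12, 21, 16), (12, 22, 21), (13, 20, 14), (14, 20, 22),
   (15, 16, 18), (16, 21, 18), (18, 21, 19), (19, 21, 22), (19, 22, 20)]

/-- directed edges of a face. -/
def dedges {α : Type} (f : α × α × α) : List (α × α) :=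
  [(f.1, f.2.1), (f.2.1, f.2.2), (f.2.2, f.1)]

/-- all directed edges of the inner faces. -/
def DE : List (Fin 23 × Fin 23) := FL.flatMap dedges

/-- table of the inner adjacency. -/
def PN : ℕ := 773147962600055903733792033985384276661162298373863000219863276543338083994416820272668570776084238771842600737206008176948265811619413671234161995250413862968

/-- inner adjacency. -/
def p (x y : Fin 23) : Bool := PN.testBit (23 * x.val + y.val)

theorem p_symm : ∀ x y, p x y = p y x := by decide +kernel

theorem DE_nodup : DE.Nodup := by decide +kernel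

theorem DE_mem : ∀ e ∈ DE, e = (0, 2) ∨ e = (2, 1) ∨ e = (1, 0) ∨ p e.1 e.2 = true := by
  decide +kernel

theorem p_card : (univ.filter (fun e : Fin 23 × Fin 23 => p e.1 e.2 = true)).card = 120 := by
  decide +kernel

theorem p_outer : p 0 2 = false ∧ p 2 1 = false ∧ p 1 0 = false := by decide +kernel

theorem DE_finset : DE.toFinset = insert (0, 2) (insert (2, 1) (insert (1, 0)
    (univ.filter (fun e : Fin 23 × Fin 23 => p e.1 e.2 = true)))) := by
  apply Finset.eq_of_subset_of_card_le
  · intro e he
    rw [List.mem_toFinset] at he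
    rcases DE_mem e he with h | h | h | h <;> simp [h]
  · rw [List.toFinset_card_of_nodup DE_nodup]
    refine (card_insert_le _ _).trans ?_
    have h1 := card_insert_le ((2, 1) : Fin 23 × Fin 23) (insert (1, 0)
      (univ.filter (fun e : Fin 23 × Fin 23 => p e.1 e.2 = true)))
    have h2 := card_insert_le ((1, 0) : Fin 23 × Fin 23)
      (univ.filter (fun e : Fin 23 × Fin 23 => p e.1 e.2 = true))
    rw [p_card] at h2
    have h3 : DE.length = 123 := by decide +kernel
    omega

theorem sum_faces {α : Type} (L : List (α × α × α)) (M : α → α → ℤ) :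
    (L.map (fun f => M f.1 f.2.1 + M f.2.1 f.2.2 + M f.2.2 f.1)).sum =
      ((L.flatMap dedges).map (fun e => M e.1 e.2)).sum := by
  induction L with
  | nil => simp
  | cons f L ih =>
    simp only [List.map_cons, List.sum_cons, List.flatMap_cons, List.map_append, List.sum_append,
      ih, dedges, List.map_nil, List.sum_nil]
    ring

/-- summing over the inner adjacency. -/
def S2 (M : Fin 23 → Fin 23 → ℤ) : ℤ := ∑ x, ∑ y, if p x y = true then M x y else 0

theorem S2_eq (M : Fin 23 → Fin 23 → ℤ) :
    (FL.map (fun f => M f.1 f.2.1 + M f.2.1 f.2.2 + M f.2.2 f.1)).sum =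
      S2 M + M 0 2 + M 2 1 + M 1 0 := by
  rw [sum_faces]
  change (DE.map (fun e => M e.1 e.2)).sum = _
  rw [← List.sum_toFinset _ DE_nodup, DE_finset]
  rw [Finset.sum_insert, Finset.sum_insert, Finset.sum_insert, Finset.sum_filter,
    ← Finset.univ_product_univ, Finset.sum_product]
  · unfold S2
    simp only
    ring
  · simp [p_outer]
  · simp [p_outer]
  · simp [p_outer]

theorem S2_add (M N : Fin 23 → Fin 23 → ℤ) : S2 (fun x y => M x y + N x y) = S2 M + S2 N := by
  unfold S2
  rw [← Finset.sum_add_distrib]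
  apply Finset.sum_congr rfl
  intro x _
  rw [← Finset.sum_add_distrib]
  apply Finset.sum_congr rfl
  intro y _
  split_ifs <;> ring

theorem S2_sub (M N : Fin 23 → Fin 23 → ℤ) : S2 (fun x y => M x y - N x y) = S2 M - S2 N := by
  unfold S2
  rw [← Finset.sum_sub_distrib]
  apply Finset.sum_congr rfl
  intro x _
  rw [← Finset.sum_sub_distrib]
  apply Finset.sum_congr rfl
  intro y _
  split_ifs <;> ring

theorem S2_swap (M : Fin 23 → Fin 23 → ℤ) : S2 (fun x y => M y x) = S2 M := by
  unfold S2
  rw [Finset.sum_comm]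
  apply Finset.sum_congr rfl
  intro x _
  apply Finset.sum_congr rfl
  intro y _
  rw [p_symm]

theorem S2_congr {M N : Fin 23 → Fin 23 → ℤ} (h : ∀ x y, p x y = true → M x y = N x y) :
    S2 M = S2 N := by
  unfold S2
  apply Finset.sum_congr rfl
  intro x _
  apply Finset.sum_congr rfl
  intro y _
  split_ifs with h1
  · exact h x y h1
  · rfl

/-- number of inner edges at each vertex. -/
def cnt (x : Fin 23) : ℕ := (univ.filter (fun y => p x y = true)).card

theorem S2_left (t : Fin 23 → ℤ) : S2 (fun x _ => t x) = ∑ x, (cnt x : ℤ) * t x := by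
  unfold S2 cnt
  apply Finset.sum_congr rfl
  intro x _
  rw [← Finset.sum_filter, Finset.sum_const, nsmul_eq_mul]

theorem cnt_eq : ∀ x : Fin 23, cnt x =
    [3, 3, 3, 5, 5, 5, 5, 5, 11, 5, 11, 5, 5, 5, 5, 5, 5, 4, 5, 5, 5, 5, 5].getD x.val 0 := by
  decide +kernel

theorem S2_one : S2 (fun _ _ => 1) = 120 := by
  rw [S2_left (fun _ => 1)]
  simp only [cnt_eq]
  decide +kernel

/-- quotients by three. -/
def qf (x : Fin 23) : ℕ :=
  [1, 1, 1, 1, 1, 1, 1, 1, 3, 1, 3, 1, 1, 1, 1, 1, 1, 0, 1, 1, 1, 1, 1].getD x.val 0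

theorem qf_eq : ∀ x : Fin 23, cnt x = 3 * qf x + (if 3 ≤ x.val then 2 else 0) +
    (if x = 17 then 2 else 0) := by
  intro x
  rw [cnt_eq]
  revert x
  decide +kernel

/-- the local lemma. -/
theorem local_lemma (t : Fin 23 → ℤ) (ht : ∀ x, t x = 0 ∨ t x = 1)
    (δ : Fin 23 → Fin 23 → ℤ) (hδ : ∀ x y, p x y = true → δ x y + δ y x = 1)
    (hδ0 : ∀ x y, 0 ≤ δ x y)
    (h1 : ∀ f ∈ FL, ¬ (t f.1 = t f.2.1 ∧ t f.2.1 = t f.2.2))
    (h2 : ∀ i : Fin 23, 3 ≤ i.val → t i = 1 → ∃ y, p i y = true ∧ t y = 1 ∧ δ i y = 1)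
    (h3 : ∀ i : Fin 23, 3 ≤ i.val → t i = 0 → ∃ y, p i y = true ∧ t y = 0 ∧ δ y i = 1) :
    False := by
  have hsq : ∀ x, t x * t x = t x := by
    intro x
    rcases ht x with h | h <;> rw [h] <;> norm_num
  have ht0 : ∀ x, 0 ≤ t x := by
    intro x; rcases ht x with h | h <;> rw [h]; norm_num
  have ht1 : ∀ x, 0 ≤ 1 - t x := by
    intro x; rcases ht x with h | h <;> rw [h] <;> norm_num
  set α : ℤ := ∑ x : Fin 23, if 3 ≤ x.val then t x else 0 with hα
  set eA : ℤ := S2 (fun x y => t x * t y * δ x y) with heA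
  set eB : ℤ := S2 (fun x y => (1 - t x) * (1 - t y) * δ y x) with heB
  -- lower bounds
  have hA : α ≤ eA := by
    rw [hα, heA]
    unfold S2
    apply Finset.sum_le_sum
    intro x _
    have hnn : ∀ y, 0 ≤ (if p x y = true then t x * t y * δ x y else 0) := by
      intro y
      split_ifs
      · exact mul_nonneg (mul_nonneg (ht0 x) (ht0 y)) (hδ0 x y)
      · exact le_rfl
    split_ifs with hx
    · rcases ht x with h | h
      · rw [h]
        exact Finset.sum_nonneg (fun y _ => by simp [h])
      · obtain ⟨y, hy1, hy2, hy3⟩ := h2 x hx h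
        calc t x = (if p x y = true then t x * t y * δ x y else 0) := by
              rw [if_pos hy1, hy2, hy3]; ring
          _ ≤ ∑ y, (if p x y = true then t x * t y * δ x y else 0) := by
              apply Finset.single_le_sum (f := fun y => if p x y = true then t x * t y * δ x y else 0)
              · intro y _
                exact hnn y
              · exact mem_univ y
    · exact Finset.sum_nonneg (fun y _ => hnn y)
  have hB : 20 - α ≤ eB := by
    have h20 : (20 : ℤ) - α = ∑ x : Fin 23, if 3 ≤ x.val then 1 - t x else 0 := by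
      have : (20 : ℤ) = ∑ x : Fin 23, if 3 ≤ x.val then (1 : ℤ) else 0 := by decide +kernel
      rw [this, hα, ← Finset.sum_sub_distrib]
      apply Finset.sum_congr rfl
      intro x _
      split_ifs <;> ring
    rw [h20, heB]
    unfold S2
    apply Finset.sum_le_sum
    intro x _
    have hnn : ∀ y, 0 ≤ (if p x y = true then (1 - t x) * (1 - t y) * δ y x else 0) := by
      intro y
      split_ifs
      · exact mul_nonneg (mul_nonneg (ht1 x) (ht1 y)) (hδ0 y x)
      · exact le_rfl
    split_ifs with hx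
    · rcases ht x with h | h
      · obtain ⟨y, hy1, hy2, hy3⟩ := h3 x hx h
        calc 1 - t x = (if p x y = true then (1 - t x) * (1 - t y) * δ y x else 0) := by
              rw [if_pos hy1, hy2, hy3, h]; norm_num
          _ ≤ ∑ y, (if p x y = true then (1 - t x) * (1 - t y) * δ y x else 0) := by
              apply Finset.single_le_sum
                (f := fun y => if p x y = true then (1 - t x) * (1 - t y) * δ y x else 0)
              · intro y _; exact hnn y
              · exact mem_univ y
      · have : 1 - t x = 0 := by rw [h]; norm_num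
        rw [this]
        exact Finset.sum_nonneg (fun y _ => by simp [this])
    · exact Finset.sum_nonneg (fun y _ => hnn y)
  -- doubling
  have hA2 : 2 * eA = S2 (fun x y => t x * t y) := by
    have e1 : eA = S2 (fun x y => t y * t x * δ y x) := by
      rw [heA, ← S2_swap]
    have e2 : eA + eA = S2 (fun x y => t x * t y * δ x y + t y * t x * δ y x) := by
      rw [S2_add]
      rw [← e1]
    rw [two_mul, e2]
    apply S2_congr
    intro x y hxy
    have := hδ x y hxy
    calc t x * t y * δ x y + t y * t x * δ y x = t x * t y * (δ x y + δ y x) := by ring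
      _ = t x * t y := by rw [this, mul_one]
  have hB2 : 2 * eB = S2 (fun x y => (1 - t x) * (1 - t y)) := by
    have e1 : eB = S2 (fun x y => (1 - t y) * (1 - t x) * δ x y) := by
      rw [heB, ← S2_swap]
    have e2 : eB + eB = S2 (fun x y => (1 - t x) * (1 - t y) * δ y x +
        (1 - t y) * (1 - t x) * δ x y) := by
      rw [S2_add]
      rw [← e1]
    rw [two_mul, e2]
    apply S2_congr
    intro x y hxy
    have := hδ x y hxy
    calc (1 - t x) * (1 - t y) * δ y x + (1 - t y) * (1 - t x) * δ x y
        = (1 - t x) * (1 - t y) * (δ x y + δ y x) := by ring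
      _ = (1 - t x) * (1 - t y) := by rw [this, mul_one]
  -- faces
  have hface := S2_eq (fun x y => t x * t y + (1 - t x) * (1 - t y))
  rw [S2_add, ← hA2, ← hB2] at hface
  have h41 : (FL.map (fun f => (t f.1 * t f.2.1 + (1 - t f.1) * (1 - t f.2.1)) +
      (t f.2.1 * t f.2.2 + (1 - t f.2.1) * (1 - t f.2.2)) +
      (t f.2.2 * t f.1 + (1 - t f.2.2) * (1 - t f.1)))).sum = 41 := by
    have : FL.map (fun f => (t f.1 * t f.2.1 + (1 - t f.1) * (1 - t f.2.1)) +
      (t f.2.1 * t f.2.2 + (1 - t f.2.1) * (1 - t f.2.2)) +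
      (t f.2.2 * t f.1 + (1 - t f.2.2) * (1 - t f.1))) = FL.map (fun _ => (1 : ℤ)) := by
      apply List.map_congr_left
      intro f hf
      have := h1 f hf
      rcases ht f.1 with a | a <;> rcases ht f.2.1 with b | b <;> rcases ht f.2.2 with c | c <;>
        rw [a, b, c] at this ⊢ <;> first | (exact absurd ⟨rfl, rfl⟩ this) | norm_num
    rw [this]
    decide +kernel
  rw [h41] at hface
  have hout : 1 ≤ (t 0 * t 2 + (1 - t 0) * (1 - t 2)) + (t 2 * t 1 + (1 - t 2) * (1 - t 1)) +
      (t 1 * t 0 + (1 - t 1) * (1 - t 0)) := by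
    rcases ht 0 with a | a <;> rcases ht 1 with b | b <;> rcases ht 2 with c | c <;>
      rw [a, b, c] <;> norm_num
  have hsum : eA + eB ≤ 20 := by linarith
  have eqA : eA = α := by linarith
  have eqB : eB = 20 - α := by linarith
  -- degree sum
  have hdeg : S2 (fun x y => t x + t y) = 120 + 2 * eA - 2 * eB := by
    rw [hA2, hB2, ← S2_one, ← S2_add, ← S2_sub]
    apply S2_congr
    intro x y _
    ring
  have hdeg2 : S2 (fun x y => t x + t y) = 2 * ∑ x, (cnt x : ℤ) * t x := by
    rw [S2_add (fun x _ => t x) (fun _ y => t y), S2_swap (fun x _ => t x), S2_left]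
    ring
  rw [hdeg2, eqA, eqB, hα] at hdeg
  have hq : ∀ x : Fin 23, (cnt x : ℤ) * t x = 3 * (qf x * t x) + 2 * (if 3 ≤ x.val then t x else 0)
      + 2 * (if x = 17 then t x else 0) := by
    intro x
    have h := qf_eq x
    have h' : (cnt x : ℤ) = 3 * qf x + (if 3 ≤ x.val then 2 else 0) + (if x = 17 then 2 else 0) := by
      exact_mod_cast h
    rw [h']
    split_ifs <;> ring
  rw [Finset.sum_congr rfl (fun x _ => hq x), Finset.sum_add_distrib, Finset.sum_add_distrib,
    ← Finset.mul_sum, ← Finset.mul_sum, ← Finset.mul_sum, Finset.sum_ite_eq' univ (17 : Fin 23) t,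
    if_pos (mem_univ _)] at hdeg
  rcases ht 17 with h | h <;> rw [h] at hdeg <;> omega

end Pool.Agent.Q272.BH
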