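import Pool.Agent.Q272.BH1
import Mathlib.Combinatorics.SimpleGraph.Basic

/-!
# Bi-heavy vertices: the graph on 64 vertices

`K_4` with vertices `0, 1, 2, 3`, three of whose faces are filled with copies of the gadget.
-/

namespace Pool.Agent.Q272.BH

open Finset

/-- the position of the vertices of the `j`-th gadget. -/
def gm (j : Fin 3) (i : Fin 23) : Fin 64 :=
  if i.val = 0 then 0
  else if i.val = 1 then [2, 3, 1].getD j.val 0
  else if i.val = 2 then [1, 2, 3].getD j.val 0
  else Fin.ofNat 64 (1 + 20 * j.val + i.val)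

/-- all faces. -/
def FG : List (Fin 64 × Fin 64 × Fin 64) :=
  [(1, 3, 2), (0, 1, 4), (0, 4, 6), (0, 5, 2), (0, 6, 5), (2, 5, 7), (2, 7, 8), (2, 8, 1),
   (1, 8, 9), (1, 9, 4), (4, 9, 10), (4, 10, 6), (5, 6, 11), (5, 11, 7), (6, 10, 11),
   (7, 11, 12), (7, 12, 8), (8, 12, 9), (9, 12, 14), (9, 13, 17), (9, 14, 15), (9, 15, 13),
   (9, 16, 18), (9, 17, 16), (9, 18, 10), (10, 18, 11), (11, 14, 12), (11, 16, 19),
   (11, 18, 16), (11, 19, 20), (11, 20, 21), (11, 21, 14), (13, 15, 23), (13, 22, 17),
   (13, 23, 22), (14, 21, 15), (15, 21, 23), (16, 17, 19), (17, 22, 19), (19, 22, 20),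
   (20, 22, 23), (20, 23, 21), (0, 2, 24), (0, 24, 26), (0, 25, 3), (0, 26, 25), (3, 25, 27),
   (3, 27, 28), (3, 28, 2), (2, 28, 29), (2, 29, 24), (24, 29, 30), (24, 30, 26),
   (25, 26, 31), (25, 31, 27), (26, 30, 31), (27, 31, 32), (27, 32, 28), (28, 32, 29),
   (29, 32, 34), (29, 33, 37), (29, 34, 35), (29, 35, 33), (29, 36, 38), (29, 37, 36),
   (29, 38, 30), (30, 38, 31), (31, 34, 32), (31, 36, 39), (31, 38, 36), (31, 39, 40),
   (31, 40, 41), (31, 41, 34), (33, 35, 43), (33, 42, 37), (33, 43, 42), (34, 41, 35),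
   (35, 41, 43), (36, 37, 39), (37, 42, 39), (39, 42, 40), (40, 42, 43), (40, 43, 41),
   (0, 3, 44), (0, 44, 46), (0, 45, 1), (0, 46, 45), (1, 45, 47), (1, 47, 48), (1, 48, 3),
   (3, 48, 49), (3, 49, 44), (44, 49, 50), (44, 50, 46), (45, 46, 51), (45, 51, 47),
   (46, 50, 51), (47, 51, 52), (47, 52, 48), (48, 52, 49), (49, 52, 54), (49, 53, 57),
   (49, 54, 55), (49, 55, 53), (49, 56, 58), (49, 57, 56), (49, 58, 50), (50, 58, 51),
   (51, 54, 52), (51, 56, 59), (51, 58, 56), (51, 59, 60), (51, 60, 61), (51, 61, 54),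
   (53, 55, 63), (53, 62, 57), (53, 63, 62), (54, 61, 55), (55, 61, 63), (56, 57, 59),
   (57, 62, 59), (59, 62, 60), (60, 62, 63), (60, 63, 61)]

/-- all directed edges. -/
def DG : List (Fin 64 × Fin 64) := FG.flatMap dedges

/-- codes of the directed edges. -/
def CL : List ℕ :=
  [67, 194, 129, 1, 68, 256, 4, 262, 384, 5, 322, 128, 6, 389, 320, 133, 327, 450, 135, 456, 514,
   136, 513, 66, 72, 521, 577, 73, 580, 257, 265, 586, 644, 266, 646, 388, 326, 395, 709, 331,
   711, 453, 394, 651, 710, 459, 716, 775, 460, 776, 519, 524, 777, 584, 588, 782, 905, 589,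
   849, 1097, 590, 911, 969, 591, 973, 841, 592, 1042, 1161, 593, 1104, 1033, 594, 1162, 649,
   658, 1163, 714, 718, 908, 779, 720, 1043, 1227, 722, 1168, 1035, 723, 1236, 1291, 724,
   1301, 1355, 725, 1358, 907, 847, 983, 1485, 854, 1425, 1101, 855, 1494, 1421, 917, 1359,
   974, 981, 1367, 1487, 1041, 1107, 1232, 1110, 1427, 1233, 1238, 1428, 1299, 1302, 1431,
   1492, 1303, 1493, 1364, 2, 152, 1536, 24, 1562, 1664, 25, 1603, 192, 26, 1689, 1600, 217,
   1627, 1731, 219, 1756, 1795, 220, 1794, 131, 156, 1821, 1858, 157, 1880, 1538, 1565, 1886,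
   1944, 1566, 1946, 1688, 1626, 1695, 2009, 1631, 2011, 1753, 1694, 1951, 2010, 1759, 2016,
   2075, 1760, 2076, 1819, 1824, 2077, 1884, 1888, 2082, 2205, 1889, 2149, 2397, 1890, 2211,
   2269, 1891, 2273, 2141, 1892, 2342, 2461, 1893, 2404, 2333, 1894, 2462, 1949, 1958, 2463,
   2014, 2018, 2208, 2079, 2020, 2343, 2527, 2022, 2468, 2335, 2023, 2536, 2591, 2024, 2601,
   2655, 2025, 2658, 2207, 2147, 2283, 2785, 2154, 2725, 2401, 2155, 2794, 2721, 2217, 2659,
   2274, 2281, 2667, 2787, 2341, 2407, 2532, 2410, 2727, 2533, 2538, 2728, 2599, 2602, 2731,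
   2792, 2603, 2793, 2664, 3, 236, 2816, 44, 2862, 2944, 45, 2881, 64, 46, 2989, 2880, 109,
   2927, 3009, 111, 3056, 3073, 112, 3075, 193, 240, 3121, 3139, 241, 3180, 2819, 2865, 3186,
   3244, 2866, 3246, 2988, 2926, 2995, 3309, 2931, 3311, 3053, 2994, 3251, 3310, 3059, 3316,
   3375, 3060, 3376, 3119, 3124, 3377, 3184, 3188, 3382, 3505, 3189, 3449, 3697, 3190, 3511,
   3569, 3191, 3573, 3441, 3192, 3642, 3761, 3193, 3704, 3633, 3194, 3762, 3249, 3258, 3763,
   3314, 3318, 3508, 3379, 3320, 3643, 3827, 3322, 3768, 3635, 3323, 3836, 3891, 3324, 3901,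
   3955, 3325, 3958, 3507, 3447, 3583, 4085, 3454, 4025, 3701, 3455, 4094, 4021, 3517, 3959,
   3574, 3581, 3967, 4087, 3641, 3707, 3832, 3710, 4027, 3833, 3838, 4028, 3899, 3902, 4031,
   4092, 3903, 4093, 3964]

/-- table of the adjacency. -/
def AN : ℕ := 459469913160766801073768191577096319769040922948752017688124562180461309177440729580968073584532007741529896463628726425049454886698790176832137889213505319831144969618138302345035366133090094343684056896664354342283986127362618151429114389321029845068097486689320075894283042568706538062281297945508492258388008397040395363557325250690517174933788310717813437131826457692053145480382023754665363762018829478152457921574958358114585366806139264697988662225751628262965586208086219716215834873614652565240331152339177543956847423380861491519031009069253480137944561026971454175264052620190342051019215841351153179272431089460504274525105723911154896594879096404339471733535577265730553334900235209668191150723298931284638979561389779879263365645527054216409229119324708675455832710145139893843732920723410196274638755481974105273059521799788381064791070116788292463298352660258755244456761116027730056480713364233416266278655005844080492490321766657230378810662825179721136916819636306575483607624316566418749354820749764744297771917312849005488642035289835634741353126898714358993905376186209753502330318368876588632150095458437482942112947367499877659253185690917722195695990614780251553930791304261872378813569699918706249029386366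

/-- adjacency. -/
def adjG (u v : Fin 64) : Bool := AN.testBit (64 * u.val + v.val)

theorem FG_eq : FG = (1, 3, 2) :: (FL.map (fun f => (gm 0 f.1, gm 0 f.2.1, gm 0 f.2.2)) ++
    (FL.map (fun f => (gm 1 f.1, gm 1 f.2.1, gm 1 f.2.2)) ++
      FL.map (fun f => (gm 2 f.1, gm 2 f.2.1, gm 2 f.2.2)))) := by
  decide +kernel

theorem DG_codes : DG.map (fun e => 64 * e.1.val + e.2.val) = CL := by decide +kernel

theorem CL_nodup : CL.Nodup := by decide +kernel

theorem DG_nodup : DG.Nodup := by
  have h := CL_nodup
  rw [← DG_codes] at h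
  exact List.Nodup.of_map _ h

theorem CL_adj : ∀ c ∈ CL, AN.testBit c = true := by decide +kernel

theorem DG_adj : ∀ e ∈ DG, adjG e.1 e.2 = true := by
  intro e he
  have h : 64 * e.1.val + e.2.val ∈ DG.map (fun e => 64 * e.1.val + e.2.val) :=
    List.mem_map.mpr ⟨e, he, rfl⟩
  rw [DG_codes] at h
  exact CL_adj _ h

theorem adj_card : ∑ u : Fin 64, ∑ v : Fin 64, (if adjG u v = true then 1 else 0) = 372 := by
  decide +kernel

theorem DG_length : DG.length = 372 := by decide +kernel

theorem DG_finset : DG.toFinset = univ.filter (fun e : Fin 64 × Fin 64 => adjG e.1 e.2 = true) := by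
  apply Finset.eq_of_subset_of_card_le
  · intro e he
    rw [List.mem_toFinset] at he
    have h := DG_adj e he
    simp only [mem_filter, mem_univ, true_and]
    exact h
  · rw [List.toFinset_card_of_nodup DG_nodup, DG_length, ← adj_card, card_filter,
      ← Finset.univ_product_univ, Finset.sum_product]

theorem adjG_symm : ∀ u v : Fin 64, adjG u v = true → adjG v u = true := by decide +kernel

theorem adjG_irrefl : ∀ u : Fin 64, adjG u u = false := by decide +kernel

/-- the counterexample. -/
def G : SimpleGraph (Fin 64) where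
  Adj u v := adjG u v = true
  symm := ⟨fun u v h => adjG_symm u v h⟩
  loopless := ⟨by
    intro u h
    rw [adjG_irrefl u] at h
    exact Bool.false_ne_true h⟩

/-- neighbours of inner vertices. -/
theorem inner_nb : ∀ j : Fin 3, ∀ i : Fin 20, ∀ v : Fin 64,
    adjG (gm j ⟨i.val + 3, by omega⟩) v = true →
      ∃ y, p ⟨i.val + 3, by omega⟩ y = true ∧ v = gm j y := by
  decide +kernel

theorem inner_adj : ∀ j : Fin 3, ∀ x y : Fin 23, p x y = true → adjG (gm j x) (gm j y) = true := by
  decide +kernel

/-- summing over adjacent pairs. -/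
theorem sum_adj (M : Fin 64 → Fin 64 → ℤ) :
    ∑ u, ∑ v, (if adjG u v = true then M u v else 0) =
      (FG.map (fun f => M f.1 f.2.1 + M f.2.1 f.2.2 + M f.2.2 f.1)).sum := by
  rw [sum_faces]
  change _ = (DG.map (fun e => M e.1 e.2)).sum
  rw [← List.sum_toFinset _ DG_nodup, DG_finset, Finset.sum_filter, ← Finset.univ_product_univ,
    Finset.sum_product]

/-- inner vertices of the gadgets are different. -/
theorem inner_inj : ∀ a b : Fin 3 × Fin 20, gm a.1 ⟨a.2.val + 3, by omega⟩ =
    gm b.1 ⟨b.2.val + 3, by omega⟩ → a = b := by decide +kernel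

end Pool.Agent.Q272.BH
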