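import Pool.Agent.Q272.BH2
import Mathlib.Data.Set.Card

/-!
# Bi-heavy vertices: the global argument
-/

namespace Pool.Agent.Q272.BH

open Finset

/-- inner vertices of the `j`-th gadget. -/
def gi (j : Fin 3) (i : Fin 20) : Fin 64 := gm j ⟨i.val + 3, by omega⟩

theorem FL_length : FL.length = 41 := by decide +kernel

/-- every orientation of the graph has a bi-heavy vertex. -/
theorem biheavy (D : Fin 64 → Fin 64 → Prop) (hD1 : ∀ u v, D u v → G.Adj u v)
    (hD2 : ∀ u v, G.Adj u v → D u v ∨ D v u) (hD3 : ∀ u v, ¬ (D u v ∧ D v u)) :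
    ∃ v, 2 ≤ {w | D v w}.ncard ∧ 2 ≤ {w | D w v}.ncard := by
  classical
  by_contra hcon
  push Not at hcon
  set dd : Fin 64 → Fin 64 → ℤ := fun u v => if D u v then 1 else 0 with hdd
  have hdd0 : ∀ u v, 0 ≤ dd u v := by
    intro u v; simp only [hdd]; split_ifs <;> norm_num
  have hddsum : ∀ u v, dd u v + dd v u = if adjG u v = true then 1 else 0 := by
    intro u v
    simp only [hdd]
    by_cases ha : adjG u v = true
    · rw [if_pos ha]
      rcases hD2 u v ha with h | h
      · rw [if_pos h, if_neg (fun h' => hD3 u v ⟨h, h'⟩)]; norm_num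
      · rw [if_pos h, if_neg (fun h' => hD3 u v ⟨h', h⟩)]; norm_num
    · rw [if_neg ha, if_neg (fun h => ha (hD1 u v h)),
        if_neg (fun h => ha (adjG_symm v u (hD1 v u h)))]
      norm_num
  have hout : ∀ u, ∑ v, dd u v = ({w | D u w}.ncard : ℤ) := by
    intro u
    have : {w | D u w} = ((univ.filter (fun w => D u w) : Finset (Fin 64)) : Set (Fin 64)) := by
      ext; simp
    rw [this, Set.ncard_coe_finset, Finset.card_filter]
    push_cast
    rfl
  have hin : ∀ u, ∑ v, dd v u = ({w | D w u}.ncard : ℤ) := by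
    intro u
    have : {w | D w u} = ((univ.filter (fun w => D w u) : Finset (Fin 64)) : Set (Fin 64)) := by
      ext; simp
    rw [this, Set.ncard_coe_finset, Finset.card_filter]
    push_cast
    rfl
  set S : Fin 64 → ℤ := fun u => if {w | D u w}.ncard ≤ 1 then 1 else 0 with hS
  have hS01 : ∀ u, S u = 0 ∨ S u = 1 := by
    intro u; simp only [hS]; split_ifs
    · right; rfl
    · left; rfl
  have hS0 : ∀ u, 0 ≤ S u := by intro u; rcases hS01 u with h | h <;> rw [h]; norm_num
  have hS1 : ∀ u, 0 ≤ 1 - S u := by intro u; rcases hS01 u with h | h <;> rw [h] <;> norm_num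
  set w : Fin 64 → ℤ := fun u =>
    ∑ v, S u * S v * dd u v + ∑ v, (1 - S u) * (1 - S v) * dd v u with hw
  have hw1 : ∀ u, w u ≤ 1 := by
    intro u
    simp only [hw]
    by_cases h : {x | D u x}.ncard ≤ 1
    · have hs : S u = 1 := by simp only [hS]; rw [if_pos h]
      rw [hs]
      have e1 : ∑ v, (1 - (1 : ℤ)) * (1 - S v) * dd v u = 0 := by simp
      rw [e1, add_zero]
      calc ∑ v, 1 * S v * dd u v ≤ ∑ v, dd u v := by
            apply Finset.sum_le_sum
            intro v _
            have := hdd0 u v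
            rcases hS01 v with h' | h' <;> rw [h'] <;> simp [this]
        _ = ({x | D u x}.ncard : ℤ) := hout u
        _ ≤ 1 := by exact_mod_cast h
    · have hs : S u = 0 := by simp only [hS]; rw [if_neg h]
      rw [hs]
      have e1 : ∑ v, (0 : ℤ) * S v * dd u v = 0 := by simp
      rw [e1, zero_add]
      have h2 : {x | D x u}.ncard ≤ 1 := by
        have := hcon u (by omega)
        omega
      calc ∑ v, (1 - (0 : ℤ)) * (1 - S v) * dd v u ≤ ∑ v, dd v u := by
            apply Finset.sum_le_sum
            intro v _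
            have := hdd0 v u
            rcases hS01 v with h' | h' <;> rw [h'] <;> simp [this]
        _ = ({x | D x u}.ncard : ℤ) := hin u
        _ ≤ 1 := by exact_mod_cast h2
  -- total
  set M : Fin 64 → Fin 64 → ℤ := fun u v => S u * S v + (1 - S u) * (1 - S v) with hM
  have htot : 2 * ∑ u, w u = ∑ u, ∑ v, (if adjG u v = true then M u v else 0) := by
    have eA : ∑ u, ∑ v, S u * S v * dd u v = ∑ u, ∑ v, S u * S v * dd v u := by
      rw [Finset.sum_comm]
      apply Finset.sum_congr rfl; intro u _
      apply Finset.sum_congr rfl; intro v _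
      ring
    have eB : ∑ u, ∑ v, (1 - S u) * (1 - S v) * dd v u =
        ∑ u, ∑ v, (1 - S u) * (1 - S v) * dd u v := by
      rw [Finset.sum_comm]
      apply Finset.sum_congr rfl; intro u _
      apply Finset.sum_congr rfl; intro v _
      ring
    have e1 : ∑ u, w u = ∑ u, ∑ v, S u * S v * dd u v +
        ∑ u, ∑ v, (1 - S u) * (1 - S v) * dd v u := by
      rw [← Finset.sum_add_distrib]
    have e2 : 2 * ∑ u, w u = (∑ u, ∑ v, S u * S v * dd u v + ∑ u, ∑ v, S u * S v * dd v u) +
        (∑ u, ∑ v, (1 - S u) * (1 - S v) * dd v u +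
          ∑ u, ∑ v, (1 - S u) * (1 - S v) * dd u v) := by
      rw [← eA, ← eB, e1]; ring
    rw [e2, ← Finset.sum_add_distrib, ← Finset.sum_add_distrib, ← Finset.sum_add_distrib]
    apply Finset.sum_congr rfl; intro u _
    rw [← Finset.sum_add_distrib, ← Finset.sum_add_distrib, ← Finset.sum_add_distrib]
    apply Finset.sum_congr rfl; intro v _
    have h := hddsum u v
    calc S u * S v * dd u v + S u * S v * dd v u +
          ((1 - S u) * (1 - S v) * dd v u + (1 - S u) * (1 - S v) * dd u v)
        = M u v * (dd u v + dd v u) := by simp only [hM]; ring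
      _ = if adjG u v = true then M u v else 0 := by
          rw [h]; split_ifs <;> ring
  -- monochromatic faces
  set mono : Fin 64 → Fin 64 → Fin 64 → ℤ := fun a b c =>
    S a * S b * S c + (1 - S a) * (1 - S b) * (1 - S c) with hmono
  have hmono0 : ∀ a b c, 0 ≤ mono a b c := by
    intro a b c
    simp only [hmono]
    have := mul_nonneg (mul_nonneg (hS0 a) (hS0 b)) (hS0 c)
    have := mul_nonneg (mul_nonneg (hS1 a) (hS1 b)) (hS1 c)
    linarith
  have hface : ∀ a b c, M a b + M b c + M c a = 1 + 2 * mono a b c := by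
    intro a b c
    simp only [hM, hmono]
    rcases hS01 a with h | h <;> rcases hS01 b with h' | h' <;> rcases hS01 c with h'' | h'' <;>
      rw [h, h', h''] <;> norm_num
  set μ : Fin 3 → ℤ := fun j => (FL.map (fun f => mono (gm j f.1) (gm j f.2.1) (gm j f.2.2))).sum
    with hμ
  have hμ0 : ∀ j, 0 ≤ μ j := by
    intro j
    simp only [hμ]
    apply List.sum_nonneg
    intro x hx
    rw [List.mem_map] at hx
    obtain ⟨f, -, rfl⟩ := hx
    exact hmono0 _ _ _
  have hpart : ∀ j, (FL.map ((fun f : Fin 64 × Fin 64 × Fin 64 =>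
      M f.1 f.2.1 + M f.2.1 f.2.2 + M f.2.2 f.1) ∘
      (fun f => (gm j f.1, gm j f.2.1, gm j f.2.2)))).sum = 41 + 2 * μ j := by
    intro j
    have e1 : FL.map ((fun f : Fin 64 × Fin 64 × Fin 64 =>
        M f.1 f.2.1 + M f.2.1 f.2.2 + M f.2.2 f.1) ∘
        (fun f => (gm j f.1, gm j f.2.1, gm j f.2.2))) =
        FL.map (fun f => 1 + 2 * mono (gm j f.1) (gm j f.2.1) (gm j f.2.2)) := by
      apply List.map_congr_left
      intro f _
      exact hface _ _ _
    rw [e1, List.sum_map_add, List.sum_map_mul_left]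
    simp only [hμ]
    congr 1
  rw [sum_adj, FG_eq] at htot
  simp only [List.map_cons, List.sum_cons, List.map_append, List.sum_append, List.map_map] at htot
  rw [hpart 0, hpart 1, hpart 2, hface 1 3 2] at htot
  have hm0 := hmono0 1 3 2
  -- deficits
  set c : Fin 3 → ℤ := fun j => ∑ i, (1 - w (gi j i)) with hc
  have hsumc : ∑ j, c j ≤ ∑ u, (1 - w u) := by
    have e1 : ∑ j, c j = ∑ a : Fin 3 × Fin 20, (1 - w (gi a.1 a.2)) := by
      rw [← Finset.univ_product_univ, Finset.sum_product]
    have e2 : ∑ a : Fin 3 × Fin 20, (1 - w (gi a.1 a.2)) =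
        ∑ u ∈ (univ : Finset (Fin 3 × Fin 20)).image (fun a => gi a.1 a.2), (1 - w u) := by
      rw [Finset.sum_image]
      intro a _ b _ h
      exact inner_inj a b h
    rw [e1, e2]
    apply Finset.sum_le_sum_of_subset_of_nonneg (subset_univ _)
    intro u _ _
    linarith [hw1 u]
  have hex : ∃ j, μ j = 0 ∧ ∀ i, w (gi j i) = 1 := by
    by_contra hno
    push Not at hno
    have h1 : ∀ j, 1 ≤ μ j + c j := by
      intro j
      have hcj : 0 ≤ c j := Finset.sum_nonneg (fun i _ => by linarith [hw1 (gi j i)])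
      by_cases hz : μ j = 0
      · obtain ⟨i, hi⟩ := hno j hz
        have h2 : 1 ≤ 1 - w (gi j i) := by
          have := hw1 (gi j i)
          omega
        have h3 : 1 - w (gi j i) ≤ c j := by
          apply Finset.single_le_sum (f := fun i => 1 - w (gi j i))
          · intro i _; linarith [hw1 (gi j i)]
          · exact mem_univ i
        have := hμ0 j
        linarith
      · have := hμ0 j
        omega
    have h2 : ∑ u, (1 - w u) = 64 - ∑ u, w u := by
      rw [Finset.sum_sub_distrib]
      simp
    have h3 := h1 0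
    have h4 := h1 1
    have h5 := h1 2
    rw [Fin.sum_univ_three, h2] at hsumc
    linarith
  obtain ⟨j, hj1, hj2⟩ := hex
  refine local_lemma (fun i => S (gm j i)) (fun i => hS01 _) (fun x y => dd (gm j x) (gm j y))
    ?_ (fun x y => hdd0 _ _) ?_ ?_ ?_
  · intro x y hxy
    rw [hddsum, if_pos (inner_adj j x y hxy)]
  · intro f hf hmon
    have h1 : mono (gm j f.1) (gm j f.2.1) (gm j f.2.2) = 0 := by
      have h2 : mono (gm j f.1) (gm j f.2.1) (gm j f.2.2) ≤ μ j := by
        simp only [hμ]
        apply List.single_le_sum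
        · intro x hx
          rw [List.mem_map] at hx
          obtain ⟨f, -, rfl⟩ := hx
          exact hmono0 _ _ _
        · exact List.mem_map.mpr ⟨f, hf, rfl⟩
      have := hmono0 (gm j f.1) (gm j f.2.1) (gm j f.2.2)
      omega
    simp only [hmono] at h1
    obtain ⟨ha, hb⟩ := hmon
    rw [ha, hb] at h1
    rcases hS01 (gm j f.2.2) with h | h <;> rw [h] at h1 <;> norm_num at h1
  · intro i hi hSi
    have hi' : gm j i = gi j ⟨i.val - 3, by omega⟩ := by
      unfold gi
      congr 1
      apply Fin.ext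
      simp only
      omega
    have h1 : w (gm j i) = 1 := by rw [hi']; exact hj2 _
    simp only [hw] at h1
    rw [hSi] at h1
    have e1 : ∑ v, (1 - (1 : ℤ)) * (1 - S v) * dd v (gm j i) = 0 := by simp
    rw [e1, add_zero] at h1
    obtain ⟨v, -, hv⟩ := Finset.exists_ne_zero_of_sum_ne_zero (by rw [h1]; norm_num)
    have hSv : S v = 1 := by
      rcases hS01 v with h | h
      · rw [h] at hv; simp at hv
      · exact h
    have hDv : D (gm j i) v := by
      by_contra hno
      apply hv
      simp only [hdd]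
      rw [if_neg hno, mul_zero]
    have hadj : adjG (gi j ⟨i.val - 3, by omega⟩) v = true := by
      rw [← hi']; exact hD1 _ _ hDv
    obtain ⟨y, hy1, hy2⟩ := inner_nb j ⟨i.val - 3, by omega⟩ v hadj
    refine ⟨y, ?_, ?_, ?_⟩
    · have : (⟨(⟨i.val - 3, by omega⟩ : Fin 20).val + 3, by omega⟩ : Fin 23) = i := by
        apply Fin.ext; simp only; omega
      rwa [this] at hy1
    · rw [← hy2]; exact hSv
    · simp only [hdd]
      rw [← hy2, if_pos hDv]
  · intro i hi hSi
    have hi' : gm j i = gi j ⟨i.val - 3, by omega⟩ := by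
      unfold gi
      congr 1
      apply Fin.ext
      simp only
      omega
    have h1 : w (gm j i) = 1 := by rw [hi']; exact hj2 _
    simp only [hw] at h1
    rw [hSi] at h1
    have e1 : ∑ v, (0 : ℤ) * S v * dd (gm j i) v = 0 := by simp
    rw [e1, zero_add] at h1
    obtain ⟨v, -, hv⟩ := Finset.exists_ne_zero_of_sum_ne_zero (by rw [h1]; norm_num)
    have hSv : S v = 0 := by
      rcases hS01 v with h | h
      · exact h
      · rw [h] at hv; simp at hv
    have hDv : D v (gm j i) := by
      by_contra hno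
      apply hv
      simp only [hdd]
      rw [if_neg hno, mul_zero]
    have hadj : adjG (gi j ⟨i.val - 3, by omega⟩) v = true := by
      rw [← hi']; exact adjG_symm _ _ (hD1 _ _ hDv)
    obtain ⟨y, hy1, hy2⟩ := inner_nb j ⟨i.val - 3, by omega⟩ v hadj
    refine ⟨y, ?_, ?_, ?_⟩
    · have : (⟨(⟨i.val - 3, by omega⟩ : Fin 20).val + 3, by omega⟩ : Fin 23) = i := by
        apply Fin.ext; simp only; omega
      rwa [this] at hy1
    · rw [← hy2]; exact hSv
    · simp only [hdd]
      rw [← hy2, if_pos hDv]

end Pool.Agent.Q272.BH
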