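import Pool.Agent.Q272.BH2
import Mathlib.Data.Real.Basic
import Mathlib.Topology.Instances.Real.Lemmas
import Mathlib.Topology.UnitInterval

/-!
# Bi-heavy vertices: a straight-line drawing of the graph
-/

namespace Pool.Agent.Q272.BH

open Finset

/-- packed first coordinates. -/
def XN : ℕ := 89534727185664284120662983344451804398784712996531880751692329945668253284621584673383453864480074409773645076959292935491044263014496496837845962665448472088704610228968582

/-- packed second coordinates. -/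
def YN : ℕ := 20807880241254052257686043762087889622841208735918740203025603743428120734733292558520163975162406568405698079013489764498885269415557140466751101179541497637085125044338835

/-- first coordinate. -/
def px (u : Fin 64) : ℕ := (XN >>> (9 * u.val)) % 512

/-- second coordinate. -/
def py (u : Fin 64) : ℕ := (YN >>> (9 * u.val)) % 512

/-- the edges. -/
def EL : List (Fin 64 × Fin 64) :=
  [(0, 1), (0, 2), (0, 3), (0, 4), (0, 5), (0, 6), (0, 24), (0, 25), (0, 26), (0, 44), (0, 45),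
   (0, 46), (1, 2), (1, 3), (1, 4), (1, 8), (1, 9), (1, 45), (1, 47), (1, 48), (2, 3), (2, 5),
   (2, 7), (2, 8), (2, 24), (2, 28), (2, 29), (3, 25), (3, 27), (3, 28), (3, 44), (3, 48),
   (3, 49), (4, 6), (4, 9), (4, 10), (5, 6), (5, 7), (5, 11), (6, 10), (6, 11), (7, 8),
   (7, 11), (7, 12), (8, 9), (8, 12), (9, 10), (9, 12), (9, 13), (9, 14), (9, 15), (9, 16),
   (9, 17), (9, 18), (10, 11), (10, 18), (11, 12), (11, 14), (11, 16), (11, 18), (11, 19),
   (11, 20), (11, 21), (12, 14), (13, 15), (13, 17), (13, 22), (13, 23), (14, 15), (14, 21),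
   (15, 21), (15, 23), (16, 17), (16, 18), (16, 19), (17, 19), (17, 22), (19, 20), (19, 22),
   (20, 21), (20, 22), (20, 23), (21, 23), (22, 23), (24, 26), (24, 29), (24, 30), (25, 26),
   (25, 27), (25, 31), (26, 30), (26, 31), (27, 28), (27, 31), (27, 32), (28, 29), (28, 32),
   (29, 30), (29, 32), (29, 33), (29, 34), (29, 35), (29, 36), (29, 37), (29, 38), (30, 31),
   (30, 38), (31, 32), (31, 34), (31, 36), (31, 38), (31, 39), (31, 40), (31, 41), (32, 34),
   (33, 35), (33, 37), (33, 42), (33, 43), (34, 35), (34, 41), (35, 41), (35, 43), (36, 37),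
   (36, 38), (36, 39), (37, 39), (37, 42), (39, 40), (39, 42), (40, 41), (40, 42), (40, 43),
   (41, 43), (42, 43), (44, 46), (44, 49), (44, 50), (45, 46), (45, 47), (45, 51), (46, 50),
   (46, 51), (47, 48), (47, 51), (47, 52), (48, 49), (48, 52), (49, 50), (49, 52), (49, 53),
   (49, 54), (49, 55), (49, 56), (49, 57), (49, 58), (50, 51), (50, 58), (51, 52), (51, 54),
   (51, 56), (51, 58), (51, 59), (51, 60), (51, 61), (52, 54), (53, 55), (53, 57), (53, 62),
   (53, 63), (54, 55), (54, 61), (55, 61), (55, 63), (56, 57), (56, 58), (56, 59), (57, 59),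
   (57, 62), (59, 60), (59, 62), (60, 61), (60, 62), (60, 63), (61, 63), (62, 63)]

/-- positive part of the orientation determinant. -/
def op (a b c : Fin 64) : ℕ := px a * py b + px b * py c + px c * py a

/-- negative part of the orientation determinant. -/
def on (a b c : Fin 64) : ℕ := px a * py c + px b * py a + px c * py b

/-- `c` and `d` are strictly on one side of the line `ab`. -/
def side (a b c d : Fin 64) : Bool :=
  (Nat.blt (on a b c) (op a b c) && Nat.blt (on a b d) (op a b d)) ||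
  (Nat.blt (op a b c) (on a b c) && Nat.blt (op a b d) (on a b d))

/-- not collinear. -/
def ncol (a b c : Fin 64) : Bool := !(Nat.beq (op a b c) (on a b c))

/-- the edges `e` and `f` do not cross. -/
def chk (e f : Fin 64 × Fin 64) : Bool :=
  if e.1 = f.1 then ncol e.1 e.2 f.2
  else if e.1 = f.2 then ncol e.1 e.2 f.1
  else if e.2 = f.1 then ncol e.1 e.2 f.2
  else if e.2 = f.2 then ncol e.1 e.2 f.1
  else side e.1 e.2 f.1 f.2 || side f.1 f.2 e.1 e.2

theorem EL_pairwise : EL.Pairwise (fun e f => chk e f = true) := by decide +kernel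

theorem EL_mem : ∀ u v : Fin 64, u < v → adjG u v = true → (u, v) ∈ EL := by decide +kernel

theorem pos_inj : ∀ u v : Fin 64, px u = px v → py u = py v → u = v := by decide +kernel

/-- three neighbours of each vertex. -/
def NB : List (Fin 64 × Fin 64 × Fin 64) :=
  [(1, 2, 3), (0, 2, 3), (0, 1, 3), (0, 1, 2), (0, 1, 6), (0, 2, 6), (0, 4, 5), (2, 5, 8),
   (1, 2, 7), (1, 4, 8), (4, 6, 9), (5, 6, 7), (7, 8, 9), (9, 15, 17), (9, 11, 12),
   (9, 13, 14), (9, 11, 17), (9, 13, 16), (9, 10, 11), (11, 16, 17), (11, 19, 21),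
   (11, 14, 15), (13, 17, 19), (13, 15, 20), (0, 2, 26), (0, 3, 26), (0, 24, 25), (3, 25, 28),
   (2, 3, 27), (2, 24, 28), (24, 26, 29), (25, 26, 27), (27, 28, 29), (29, 35, 37),
   (29, 31, 32), (29, 33, 34), (29, 31, 37), (29, 33, 36), (29, 30, 31), (31, 36, 37),
   (31, 39, 41), (31, 34, 35), (33, 37, 39), (33, 35, 40), (0, 3, 46), (0, 1, 46),
   (0, 44, 45), (1, 45, 48), (1, 3, 47), (3, 44, 48), (44, 46, 49), (45, 46, 47),
   (47, 48, 49), (49, 55, 57), (49, 51, 52), (49, 53, 54), (49, 51, 57), (49, 53, 56),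
   (49, 50, 51), (51, 56, 57), (51, 59, 61), (51, 54, 55), (53, 57, 59), (53, 55, 60)]

theorem NB_ok : ∀ z : Fin 64, (fun t : Fin 64 × Fin 64 × Fin 64 => adjG z t.1 = true ∧
    adjG z t.2.1 = true ∧ adjG z t.2.2 = true ∧ t.1 ≠ t.2.1 ∧ t.1 ≠ t.2.2 ∧ t.2.1 ≠ t.2.2)
      (NB.getD z.val (0, 0, 0)) := by
  decide +kernel

/-- every vertex has a neighbour outside any two given vertices. -/
theorem third_nb (z u v : Fin 64) : ∃ w, adjG z w = true ∧ w ≠ u ∧ w ≠ v := by
  have h := NB_ok z
  generalize NB.getD z.val (0, 0, 0) = t at h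
  obtain ⟨a, b, c⟩ := t
  simp only at h
  obtain ⟨h1, h2, h3, h4, h5, h6⟩ := h
  by_cases ha : a ≠ u ∧ a ≠ v
  · exact ⟨a, h1, ha⟩
  by_cases hb : b ≠ u ∧ b ≠ v
  · exact ⟨b, h2, hb⟩
  refine ⟨c, h3, ?_, ?_⟩
  · rintro rfl
    apply ha
    refine ⟨h5, ?_⟩
    rintro rfl
    exact hb ⟨h6, h4.symm⟩
  · rintro rfl
    apply ha
    refine ⟨?_, h5⟩
    rintro rfl
    exact hb ⟨h4.symm, h6⟩

/-- the position of a vertex. -/
noncomputable def P (u : Fin 64) : ℝ × ℝ := ((px u : ℝ), (py u : ℝ))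

/-- the point with parameter `t` on the line through `A` and `B`. -/
noncomputable def pt (A B : ℝ × ℝ) (t : ℝ) : ℝ × ℝ :=
  (A.1 + t * (B.1 - A.1), A.2 + t * (B.2 - A.2))

/-- orientation determinant. -/
noncomputable def det (A B C : ℝ × ℝ) : ℝ :=
  (B.1 - A.1) * (C.2 - A.2) - (B.2 - A.2) * (C.1 - A.1)

theorem det_P (a b c : Fin 64) : det (P a) (P b) (P c) = (op a b c : ℝ) - (on a b c : ℝ) := by
  unfold det P op on
  push_cast
  ring

theorem pt_symm (A B : ℝ × ℝ) (t : ℝ) : pt A B t = pt B A (1 - t) := by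
  unfold pt
  ext <;> simp only <;> ring

theorem sep {A B C D : ℝ × ℝ} {t s : ℝ} (h0 : 0 ≤ s) (h1 : s ≤ 1) (h : pt A B t = pt C D s)
    (hC : 0 < det A B C) (hD : 0 < det A B D) : False := by
  have e1 : det A B (pt A B t) = 0 := by unfold det pt; simp only; ring
  have e2 : det A B (pt C D s) = (1 - s) * det A B C + s * det A B D := by
    unfold det pt; simp only; ring
  rw [h, e2] at e1
  have h3 := mul_nonneg (sub_nonneg.mpr h1) hC.le
  rcases h0.eq_or_lt with h4 | h4
  · rw [← h4] at e1; simp at e1; linarith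
  · have := mul_pos h4 hD
    linarith

theorem sep' {A B C D : ℝ × ℝ} {t s : ℝ} (h0 : 0 ≤ s) (h1 : s ≤ 1) (h : pt A B t = pt C D s)
    (hC : det A B C < 0) (hD : det A B D < 0) : False := by
  have e1 : det A B (pt A B t) = 0 := by unfold det pt; simp only; ring
  have e2 : det A B (pt C D s) = (1 - s) * det A B C + s * det A B D := by
    unfold det pt; simp only; ring
  rw [h, e2] at e1
  have h3 := mul_nonpos_of_nonneg_of_nonpos (sub_nonneg.mpr h1) hC.le
  rcases h0.eq_or_lt with h4 | h4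
  · rw [← h4] at e1; simp at e1; linarith
  · have := mul_neg_of_pos_of_neg h4 hD
    linarith

theorem shared {A B D : ℝ × ℝ} {t s : ℝ} (h : pt A B t = pt A D s) (hD : det A B D ≠ 0) :
    t = 0 := by
  unfold pt at h
  rw [Prod.mk.injEq] at h
  obtain ⟨h1, h2⟩ := h
  have e : t * det A B D = 0 := by
    unfold det
    have e1 : t * (B.1 - A.1) = s * (D.1 - A.1) := by linarith
    have e2 : t * (B.2 - A.2) = s * (D.2 - A.2) := by linarith
    calc t * ((B.1 - A.1) * (D.2 - A.2) - (B.2 - A.2) * (D.1 - A.1))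
        = (t * (B.1 - A.1)) * (D.2 - A.2) - (t * (B.2 - A.2)) * (D.1 - A.1) := by ring
      _ = 0 := by rw [e1, e2]; ring
  rcases mul_eq_zero.mp e with h | h
  · exact h
  · exact absurd h hD

theorem pt_zero (A B : ℝ × ℝ) : pt A B 0 = A := by unfold pt; ext <;> simp

theorem pt_one (A B : ℝ × ℝ) : pt A B 1 = B := by unfold pt; ext <;> simp

theorem ncol_det {a b c : Fin 64} (h : ncol a b c = true) : det (P a) (P b) (P c) ≠ 0 := by
  rw [det_P]
  intro h0
  have h1 : (op a b c : ℝ) = (on a b c : ℝ) := by linarith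
  have h2 : op a b c = on a b c := by exact_mod_cast h1
  unfold ncol at h
  rw [h2] at h
  simp at h

theorem det_swap (A B C : ℝ × ℝ) : det B A C = - det A B C := by unfold det; ring

theorem side_false {a b c d : Fin 64} (hs : side a b c d = true) {t s : ℝ} (h0 : 0 ≤ s)
    (h1 : s ≤ 1) (h : pt (P a) (P b) t = pt (P c) (P d) s) : False := by
  unfold side at hs
  rw [Bool.or_eq_true, Bool.and_eq_true, Bool.and_eq_true] at hs
  simp only [Nat.blt_eq] at hs
  rcases hs with ⟨g1, g2⟩ | ⟨g1, g2⟩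
  · have g1' : (on a b c : ℝ) < op a b c := by exact_mod_cast g1
    have g2' : (on a b d : ℝ) < op a b d := by exact_mod_cast g2
    exact sep h0 h1 h (by rw [det_P]; linarith) (by rw [det_P]; linarith)
  · have g1' : (op a b c : ℝ) < on a b c := by exact_mod_cast g1
    have g2' : (op a b d : ℝ) < on a b d := by exact_mod_cast g2
    exact sep' h0 h1 h (by rw [det_P]; linarith) (by rw [det_P]; linarith)

/-- checked edges meet only in a common end. -/
theorem chk_meet {a b c d : Fin 64} (h : chk (a, b) (c, d) = true) {t s : ℝ} (ht0 : 0 ≤ t)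
    (ht1 : t ≤ 1) (hs0 : 0 ≤ s) (hs1 : s ≤ 1) (heq : pt (P a) (P b) t = pt (P c) (P d) s) :
    ∃ q, (q = a ∨ q = b) ∧ (q = c ∨ q = d) ∧ pt (P a) (P b) t = P q := by
  unfold chk at h
  simp only at h
  split_ifs at h with h1 h2 h3 h4
  · subst h1
    refine ⟨a, Or.inl rfl, Or.inl rfl, ?_⟩
    rw [shared heq (ncol_det h), pt_zero]
  · subst h2
    refine ⟨a, Or.inl rfl, Or.inr rfl, ?_⟩
    rw [pt_symm (P c) (P a) s] at heq
    rw [shared heq (ncol_det h), pt_zero]
  · subst h3
    refine ⟨b, Or.inr rfl, Or.inl rfl, ?_⟩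
    rw [pt_symm (P a) (P b) t] at heq ⊢
    have hd : det (P b) (P a) (P d) ≠ 0 := by
      rw [det_swap]; exact neg_ne_zero.mpr (ncol_det h)
    rw [shared heq hd, pt_zero]
  · subst h4
    refine ⟨b, Or.inr rfl, Or.inr rfl, ?_⟩
    rw [pt_symm (P a) (P b) t, pt_symm (P c) (P b) s] at heq
    rw [pt_symm (P a) (P b) t]
    have hd : det (P b) (P a) (P c) ≠ 0 := by
      rw [det_swap]; exact neg_ne_zero.mpr (ncol_det h)
    rw [shared heq hd, pt_zero]
  · rw [Bool.or_eq_true] at h
    rcases h with h | h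
    · exact (side_false h hs0 hs1 heq).elim
    · exact (side_false h ht0 ht1 heq.symm).elim

/-- distinct edges of the list meet only in a common end. -/
theorem list_meet {e f : Fin 64 × Fin 64} (he : e ∈ EL) (hf : f ∈ EL) (hne : e ≠ f) {t s : ℝ}
    (ht0 : 0 ≤ t) (ht1 : t ≤ 1) (hs0 : 0 ≤ s) (hs1 : s ≤ 1)
    (heq : pt (P e.1) (P e.2) t = pt (P f.1) (P f.2) s) :
    ∃ q, (q = e.1 ∨ q = e.2) ∧ (q = f.1 ∨ q = f.2) ∧ pt (P e.1) (P e.2) t = P q := by
  have hpw : EL.Pairwise (fun e f => chk e f = true ∨ chk f e = true) :=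
    EL_pairwise.imp (fun h => Or.inl h)
  have : Std.Symm (fun e f : Fin 64 × Fin 64 => chk e f = true ∨ chk f e = true) :=
    ⟨fun _ _ h => h.symm⟩
  rcases hpw.forall he hf hne with h | h
  · exact chk_meet h ht0 ht1 hs0 hs1 heq
  · obtain ⟨q, h1, h2, h3⟩ := chk_meet h hs0 hs1 ht0 ht1 heq.symm
    exact ⟨q, h2, h1, by rw [heq, h3]⟩

end Pool.Agent.Q272.BH
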