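import Mathlib.Combinatorics.SimpleGraph.Maps
import Mathlib.Combinatorics.SimpleGraph.Connectivity.Connected
import Mathlib.Data.Fintype.Prod
import Mathlib.Data.Fintype.Pi
import Mathlib.Data.ZMod.Basic
import Mathlib.Data.Set.Card
import Mathlib.Tactic

/-!
# Witnesses for the non-monotonicity of rainbow subgraphs: the construction
-/

namespace Pool.Agent.Q272.NM

open Finset

/-- points of the cube. -/
abbrev Cube (k : ℕ) : Type := Fin (k + 4) → Bool

/-- flip one coordinate. -/
def flip {k : ℕ} (i : Fin (k + 4)) (u : Cube k) : Cube k := Function.update u i (!(u i))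

/-- the all-false point. -/
def zero (k : ℕ) : Cube k := fun _ => false

theorem flip_flip {k : ℕ} (i : Fin (k + 4)) (u : Cube k) : flip i (flip i u) = u := by
  ext j
  by_cases h : j = i
  · subst h; simp [flip]
  · simp [flip, Function.update_of_ne h]

theorem flip_ne {k : ℕ} (i : Fin (k + 4)) (u : Cube k) : flip i u ≠ u := by
  intro h
  have := congrFun h i
  simp [flip] at this

theorem flip_apply_self {k : ℕ} (i : Fin (k + 4)) (u : Cube k) : flip i u i = !(u i) := by
  simp [flip]

theorem flip_apply_ne {k : ℕ} {i j : Fin (k + 4)} (h : j ≠ i) (u : Cube k) :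
    flip i u j = u j := by
  simp [flip, Function.update_of_ne h]

theorem flip_inj {k : ℕ} {i j : Fin (k + 4)} {u : Cube k} (h : flip i u = flip j u) : i = j := by
  by_contra hne
  have := congrFun h i
  rw [flip_apply_self, flip_apply_ne hne] at this
  simp at this

/-- The vertices of the witness: the vertices `core 0, ..., core 7` of the `8`-cycle, the hub
`core 8`, the `k` leaves and the vertices of the gadgets. -/
inductive Vx (k : ℕ) : Type
  | core (i : Fin 9) : Vx k
  | leaf (l : Fin k) : Vx k
  | gad (s : Bool) (g : Fin (k + 4)) (u : Fin (k + 4) → Bool) : Vx k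
  deriving DecidableEq

open Vx

instance (k : ℕ) : Finite (Vx k) := by
  apply Finite.of_injective (β := Fin 9 ⊕ Fin k ⊕ (Bool × Fin (k + 4) × (Fin (k + 4) → Bool)))
    (fun v => match v with
      | core i => Sum.inl i
      | leaf l => Sum.inr (Sum.inl l)
      | gad s g u => Sum.inr (Sum.inr (s, g, u)))
  intro a b h
  cases a <;> cases b <;> simp_all

/-- gadgets attached to the cycle. -/
def allowed {k : ℕ} (s : Bool) (g : Fin (k + 4)) : Bool :=
  if s then (g.val == 2 || 4 ≤ g.val) else 3 ≤ g.val

/-- first port. -/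
def port0 (s : Bool) : Fin 9 := if s then 2 else 0

/-- second port. -/
def port1 (s : Bool) : Fin 9 := if s then 6 else 4

/-- the neighbour of `core i` in colour `d`. -/
def coreNb {k : ℕ} (d : Fin (k + 4)) (i : Fin 9) : Vx k :=
  match i with
  | 0 => if d.val = 0 then core 8 else if d.val = 1 then core 7 else
      if d.val = 2 then core 1 else gad false d (zero k)
  | 1 => if d.val = 2 then core 0 else if d.val = 3 then core 2 else core 1
  | 2 => if d.val = 0 then core 3 else if d.val = 1 then core 8 else
      if d.val = 3 then core 1 else gad true d (zero k)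
  | 3 => if d.val = 0 then core 2 else if d.val = 1 then core 4 else core 3
  | 4 => if d.val = 0 then core 5 else if d.val = 1 then core 3 else
      if d.val = 2 then core 8 else gad false d (flip d (zero k))
  | 5 => if d.val = 0 then core 4 else if d.val = 1 then core 6 else core 5
  | 6 => if d.val = 0 then core 7 else if d.val = 1 then core 5 else
      if d.val = 3 then core 8 else gad true d (flip d (zero k))
  | 7 => if d.val = 0 then core 6 else if d.val = 1 then core 0 else core 7
  | 8 => if d.val = 0 then core 0 else if d.val = 1 then core 2 else if d.val = 2 then core 4 else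
      if d.val = 3 then core 6 else (if h : d.val - 4 < k then leaf ⟨d.val - 4, h⟩ else core 8)

/-- the neighbour of a vertex in colour `d` (or the vertex itself). -/
def nb {k : ℕ} (d : Fin (k + 4)) : Vx k → Vx k
  | core i => coreNb d i
  | leaf l => if d.val = l.val + 4 then core 8 else leaf l
  | gad s g u =>
      if d = g ∧ allowed s g = true ∧ u = zero k then core (port0 s)
      else if d = g ∧ allowed s g = true ∧ u = flip g (zero k) then core (port1 s)
      else gad s g (flip d u)

theorem d_cases {k : ℕ} (d : Fin (k + 4)) :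
    d.val = 0 ∨ d.val = 1 ∨ d.val = 2 ∨ d.val = 3 ∨ (4 ≤ d.val ∧ d.val - 4 < k) := by
  have := d.2
  omega

theorem zero_ne_flip {k : ℕ} (d : Fin (k + 4)) : zero k ≠ flip d (zero k) :=
  fun h => flip_ne d (zero k) h.symm

theorem nb_nb {k : ℕ} (d : Fin (k + 4)) (v : Vx k) : nb d (nb d v) = v := by
  rcases v with i | l | ⟨s, g, u⟩
  · rcases d_cases d with h | h | h | h | ⟨h, h'⟩
    · fin_cases i <;> simp [nb, coreNb, h]
    · fin_cases i <;> simp [nb, coreNb, h]
    · fin_cases i <;> simp [nb, coreNb, h, allowed, port0, port1, (zero_ne_flip d).symm]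
    · fin_cases i <;> simp [nb, coreNb, h, allowed, port0, port1, (zero_ne_flip d).symm]
    · have h0 : d.val ≠ 0 := by omega
      have h1 : d.val ≠ 1 := by omega
      have h2 : d.val ≠ 2 := by omega
      have h3 : d.val ≠ 3 := by omega
      have h5 : d.val = d.val - 4 + 4 := by omega
      have h6 : 3 ≤ d.val := by omega
      fin_cases i <;>
        simp [nb, coreNb, h, h', h0, h1, h2, h3, allowed, port0, port1, (zero_ne_flip d).symm, h6]
  · by_cases h : d.val = l.val + 4
    · simp [nb, coreNb, h]
    · simp [nb, h]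
  · by_cases h1 : d = g ∧ allowed s g = true ∧ u = zero k
    · obtain ⟨rfl, h2, rfl⟩ := h1
      cases s
      · simp only [allowed, Bool.false_eq_true, if_false, decide_eq_true_eq] at h2
        have h0 : d.val ≠ 0 := by omega
        have h1 : d.val ≠ 1 := by omega
        have h3 : d.val ≠ 2 := by omega
        simp [nb, coreNb, allowed, port0, h2, h0, h1, h3]
      · simp only [allowed, if_true, Bool.or_eq_true, beq_iff_eq, decide_eq_true_eq] at h2
        have h0 : d.val ≠ 0 := by omega
        have h1 : d.val ≠ 1 := by omega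
        have h3 : d.val ≠ 3 := by omega
        simp [nb, coreNb, allowed, port0, h2, h0, h1, h3]
    · by_cases h3 : d = g ∧ allowed s g = true ∧ u = flip g (zero k)
      · obtain ⟨rfl, h2, rfl⟩ := h3
        have hz := (zero_ne_flip d).symm
        cases s
        · simp only [allowed, Bool.false_eq_true, if_false, decide_eq_true_eq] at h2
          have h0 : d.val ≠ 0 := by omega
          have h1 : d.val ≠ 1 := by omega
          have h3 : d.val ≠ 2 := by omega
          simp [nb, coreNb, allowed, port1, h2, h0, h1, h3, hz]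
        · simp only [allowed, if_true, Bool.or_eq_true, beq_iff_eq, decide_eq_true_eq] at h2
          have h0 : d.val ≠ 0 := by omega
          have h1 : d.val ≠ 1 := by omega
          have h3 : d.val ≠ 3 := by omega
          simp [nb, coreNb, allowed, port1, h2, h0, h1, h3, hz]
      · have e1 : nb d (gad s g u) = gad s g (flip d u) := by
          simp only [nb]
          rw [if_neg h1, if_neg h3]
        rw [e1]
        simp only [nb]
        rw [if_neg, if_neg, flip_flip]
        · rintro ⟨rfl, h4, h5⟩
          apply h1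
          refine ⟨rfl, h4, ?_⟩
          have := congrArg (flip d) h5
          rwa [flip_flip, flip_flip] at this
        · rintro ⟨rfl, h4, h5⟩
          apply h3
          refine ⟨rfl, h4, ?_⟩
          have := congrArg (flip d) h5
          rwa [flip_flip] at this

theorem d_cases' {k : ℕ} (d : Fin (k + 4)) :
    d.val = 0 ∨ d.val = 1 ∨ d.val = 2 ∨ d.val = 3 ∨
      (d ≠ 0 ∧ d.val ≠ 0 ∧ d.val ≠ 1 ∧ d.val ≠ 2 ∧ d.val ≠ 3 ∧ d.val - 4 < k) := by
  rcases d_cases d with h | h | h | h | ⟨h, h'⟩
  · exact Or.inl h
  · exact Or.inr (Or.inl h)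
  · exact Or.inr (Or.inr (Or.inl h))
  · exact Or.inr (Or.inr (Or.inr (Or.inl h)))
  · refine Or.inr (Or.inr (Or.inr (Or.inr ⟨?_, by omega, by omega, by omega, by omega, h'⟩)))
    rintro rfl
    simp at h

theorem nb_inj {k : ℕ} {d e : Fin (k + 4)} {v : Vx k} (h : nb d v = nb e v) (hne : nb d v ≠ v) :
    d = e := by
  rcases v with i | l | ⟨s, g, u⟩
  · rcases d_cases' d with h0 | h0 | h0 | h0 | ⟨h0, h01, h02, h03, h04, h0'⟩ <;>
    rcases d_cases' e with h1 | h1 | h1 | h1 | ⟨h1, h11, h12, h13, h14, h1'⟩ <;>
    first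
    | (exact Fin.ext (h0.trans h1.symm))
    | skip
    all_goals
      fin_cases i <;> simp [nb, coreNb, *] at h hne ⊢
    all_goals first | exact h | exact h.1 | exact Fin.ext (by omega)
  · by_cases h1 : d.val = l.val + 4
    · by_cases h2 : e.val = l.val + 4
      · exact Fin.ext (by omega)
      · simp [nb, h1, h2] at h
    · simp [nb, h1] at hne
  · simp only [nb] at h
    split_ifs at h with h1 h2 h3 h4 h5 h6 h7 h8
    · exact h1.1.trans h2.1.symm
    · exact h1.1.trans h3.1.symm
    · exact h4.1.trans h5.1.symm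
    · exact h4.1.trans h6.1.symm
    · simp only [gad.injEq, true_and] at h
      exact flip_inj h

/-- the witness graph. -/
def wit (k : ℕ) : SimpleGraph (Vx k) where
  Adj a b := a ≠ b ∧ ∃ d : Fin (k + 4), nb d a = b
  symm := ⟨by
    rintro a b ⟨h, d, hd⟩
    exact ⟨h.symm, d, by rw [← hd, nb_nb]⟩⟩
  loopless := ⟨by rintro a ⟨h, -⟩; exact h rfl⟩

theorem wit_adj {k : ℕ} {a b : Vx k} : (wit k).Adj a b ↔ a ≠ b ∧ ∃ d, nb d a = b := Iff.rfl

theorem adj_nb {k : ℕ} {d : Fin (k + 4)} {v : Vx k} (h : nb d v ≠ v) :
    (wit k).Adj v (nb d v) := ⟨h.symm, d, rfl⟩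

/-- the colour of an edge in the colouring with `k + 4` colours. -/
def c1f {k : ℕ} (a b : Vx k) : ℕ := ∑ d : Fin (k + 4), if nb d a = b ∧ a ≠ b then d.val else 0

theorem c1f_symm {k : ℕ} (a b : Vx k) : c1f a b = c1f b a := by
  unfold c1f
  apply Finset.sum_congr rfl
  intro d _
  have : (nb d a = b ∧ a ≠ b) ↔ (nb d b = a ∧ b ≠ a) := by
    constructor
    · rintro ⟨h, h'⟩; exact ⟨by rw [← h, nb_nb], h'.symm⟩
    · rintro ⟨h, h'⟩; exact ⟨by rw [← h, nb_nb], h'.symm⟩
  simp only [this]

theorem c1f_nb {k : ℕ} {d : Fin (k + 4)} {v : Vx k} (h : nb d v ≠ v) :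
    c1f v (nb d v) = d.val := by
  unfold c1f
  rw [Finset.sum_eq_single d]
  · rw [if_pos ⟨rfl, h.symm⟩]
  · intro e _ hed
    rw [if_neg]
    rintro ⟨h1, -⟩
    exact hed (nb_inj h1.symm h).symm
  · intro h; exact absurd (mem_univ _) h

/-- full vertices: all colours are present. -/
theorem gad_full {k : ℕ} (s : Bool) (g : Fin (k + 4)) (u : Cube k) (d : Fin (k + 4)) :
    nb d (gad s g u) ≠ gad s g u := by
  simp only [nb]
  split_ifs
  · simp
  · simp
  · intro h
    simp only [gad.injEq, true_and] at h
    exact flip_ne d u h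

theorem core_full {k : ℕ} (i : Fin 9) (hi : i = 0 ∨ i = 2 ∨ i = 4 ∨ i = 6 ∨ i = 8)
    (d : Fin (k + 4)) : nb d (core i) ≠ core i := by
  rcases hi with rfl | rfl | rfl | rfl | rfl <;>
  rcases d_cases' d with h0 | h0 | h0 | h0 | ⟨h0, h01, h02, h03, h04, h0'⟩ <;>
  simp [nb, coreNb, *]

end Pool.Agent.Q272.NM
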