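import Pool.Agent.Q272.NM1

/-!
# Witnesses for the non-monotonicity of rainbow subgraphs: colourings with `k + 4` colours
-/

namespace Pool.Agent.Q272.NM

open Finset Vx

section

variable {k : ℕ} (c : Sym2 (Vx k) → ℕ) (P : Finset ℕ)
  (hc : ∀ a b b', (wit k).Adj a b → (wit k).Adj a b' → b ≠ b' → c s(a, b) ≠ c s(a, b'))
  (hP : ∀ a b, (wit k).Adj a b → c s(a, b) ∈ P) (hcard : P.card = k + 4)

include hc in
theorem col_inj {v : Vx k} (hv : ∀ d, nb d v ≠ v) {d e : Fin (k + 4)}
    (h : c s(v, nb d v) = c s(v, nb e v)) : d = e := by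
  by_contra hne
  exact hc v _ _ (adj_nb (hv d)) (adj_nb (hv e)) (fun h' => hne (nb_inj h' (hv d))) h

include hc hP hcard in
theorem full {v : Vx k} (hv : ∀ d, nb d v ≠ v) {κ : ℕ} (hκ : κ ∈ P) :
    ∃ d, c s(v, nb d v) = κ := by
  have h1 : (univ : Finset (Fin (k + 4))).image (fun d => c s(v, nb d v)) = P := by
    apply eq_of_subset_of_card_le
    · intro x hx
      rw [mem_image] at hx
      obtain ⟨d, -, rfl⟩ := hx
      exact hP _ _ (adj_nb (hv d))
    · rw [card_image_of_injective _ (fun d e h => col_inj c hc hv h), hcard]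
      simp
  rw [← h1, mem_image] at hκ
  obtain ⟨d, -, hd⟩ := hκ
  exact ⟨d, hd⟩

include hc hP hcard in
/-- the two boundary edges of a gadget have the same colour. -/
theorem parity (s : Bool) (g : Fin (k + 4)) (hg : allowed s g = true) :
    c s(core (port0 s), gad s g (zero k)) = c s(core (port1 s), gad s g (flip g (zero k))) := by
  classical
  have e0 : nb g (gad s g (zero k)) = core (port0 s) := by
    simp [nb, hg]
  have e1 : nb g (gad s g (flip g (zero k))) = core (port1 s) := by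
    simp [nb, hg, (zero_ne_flip g).symm]
  set κ : ℕ := c s(core (port0 s), gad s g (zero k)) with hκ
  have hκP : κ ∈ P := by
    apply hP
    have := (adj_nb (gad_full s g (zero k) g)).symm
    rwa [e0] at this
  -- indicator
  let F : Cube k → Fin (k + 4) → ZMod 2 := fun u i =>
    if c s(gad s g u, nb i (gad s g u)) = κ then 1 else 0
  have hrow : ∀ u, ∑ i, F u i = 1 := by
    intro u
    obtain ⟨d, hd⟩ := full c P hc hP hcard (v := gad s g u) (gad_full s g u) hκP
    rw [Finset.sum_eq_single d]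
    · simp only [F]; rw [if_pos hd]
    · intro e _ hed
      simp only [F]
      rw [if_neg]
      intro h
      exact hed (col_inj c hc (gad_full s g u) (h.trans hd.symm))
    · intro h; exact absurd (mem_univ _) h
  have htot : ∑ u, ∑ i, F u i = 0 := by
    rw [Finset.sum_congr rfl (fun u _ => hrow u)]
    rw [Finset.sum_const, Finset.card_univ, Fintype.card_fun, Fintype.card_bool, Fintype.card_fin,
      nsmul_eq_mul, mul_one, Nat.cast_pow]
    have : ((2 : ℕ) : ZMod 2) = 0 := by decide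
    rw [this, zero_pow (by omega)]
  rw [Finset.sum_comm] at htot
  have hflip : ∀ u i, ¬ (i = g ∧ (u = zero k ∨ u = flip g (zero k))) →
      nb i (gad s g u) = gad s g (flip i u) := by
    intro u i h
    simp only [nb]
    rw [if_neg, if_neg]
    · rintro ⟨h1, -, h2⟩; exact h ⟨h1, Or.inr h2⟩
    · rintro ⟨h1, -, h2⟩; exact h ⟨h1, Or.inl h2⟩
  have hF : ∀ u i, ¬ (i = g ∧ (u = zero k ∨ u = flip g (zero k))) →
      F u i + F (flip i u) i = 0 := by
    intro u i h
    have h2 : ¬ (i = g ∧ (flip i u = zero k ∨ flip i u = flip g (zero k))) := by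
      rintro ⟨rfl, h3 | h3⟩
      · apply h
        refine ⟨rfl, Or.inr ?_⟩
        rw [← h3, flip_flip]
      · apply h
        refine ⟨rfl, Or.inl ?_⟩
        have := congrArg (flip i) h3
        rwa [flip_flip, flip_flip] at this
    simp only [F]
    rw [hflip u i h, hflip _ i h2, flip_flip, Sym2.eq_swap (a := gad s g (flip i u))]
    split_ifs
    · decide
    · simp
  have hcol : ∀ i, i ≠ g → ∑ u, F u i = 0 := by
    intro i hi
    apply Finset.sum_involution (fun u _ => flip i u)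
    · intro u _
      exact hF u i (fun h => hi h.1)
    · intro u _ _
      exact flip_ne i u
    · intro u _; exact mem_univ _
    · intro u _; exact flip_flip i u
  have hcol2 : ∑ u ∈ univ \ {zero k, flip g (zero k)}, F u g = 0 := by
    apply Finset.sum_involution (fun u _ => flip g u)
    · intro u hu
      apply hF u g
      rw [mem_sdiff, mem_insert, mem_singleton] at hu
      exact fun h => hu.2 h.2
    · intro u _ _
      exact flip_ne g u
    · intro u hu
      rw [mem_sdiff, mem_insert, mem_singleton] at hu ⊢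
      refine ⟨mem_univ _, fun h => hu.2 ?_⟩
      rcases h with h | h
      · right; rw [← h, flip_flip]
      · left
        have := congrArg (flip g) h
        rwa [flip_flip, flip_flip] at this
    · intro u _; exact flip_flip g u
  rw [Finset.sum_eq_single g (fun i _ hi => hcol i hi) (fun h => absurd (mem_univ _) h)] at htot
  rw [← Finset.sum_sdiff (subset_univ {zero k, flip g (zero k)}), hcol2, zero_add,
    Finset.sum_pair (zero_ne_flip g)] at htot
  have h0 : F (zero k) g = 1 := by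
    simp only [F]
    rw [e0, if_pos]
    rw [hκ, Sym2.eq_swap]
  rw [h0] at htot
  by_contra hne
  have h1 : F (flip g (zero k)) g = 0 := by
    simp only [F]
    rw [e1, if_neg]
    rw [Sym2.eq_swap]
    exact fun h => hne h.symm
  rw [h1] at htot
  exact absurd htot (by decide)

end

/-- the combinatorial core: one of the four quadrilaterals is rainbow. -/
theorem quad (a0 a1 a2 a3 e0 e1 e2 e3 e4 e5 e6 e7 : ℕ)
    (h01 : a0 ≠ a1) (h02 : a0 ≠ a2) (h03 : a0 ≠ a3) (h12 : a1 ≠ a2) (h13 : a1 ≠ a3)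
    (h23 : a2 ≠ a3)
    (p1 : a0 ≠ e7) (p2 : a0 ≠ e0) (p3 : e7 ≠ e0)
    (p4 : a1 ≠ e1) (p5 : a1 ≠ e2) (p6 : e1 ≠ e2)
    (p7 : a2 ≠ e3) (p8 : a2 ≠ e4) (p9 : e3 ≠ e4)
    (p10 : a3 ≠ e5) (p11 : a3 ≠ e6) (p12 : e5 ≠ e6)
    (q1 : e0 ≠ e1) (q2 : e2 ≠ e3) (q3 : e4 ≠ e5) (q4 : e6 ≠ e7)
    (s1 : a0 = a2 ∨ a0 = e3 ∨ a0 = e4) (s2 : e7 = a2 ∨ e7 = e3 ∨ e7 = e4)
    (s3 : e0 = a2 ∨ e0 = e3 ∨ e0 = e4)
    (t1 : a1 = a3 ∨ a1 = e5 ∨ a1 = e6) (t2 : e1 = a3 ∨ e1 = e5 ∨ e1 = e6)
    (t3 : e2 = a3 ∨ e2 = e5 ∨ e2 = e6) :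
    (e0 ≠ a1 ∧ e1 ≠ a0) ∨ (e2 ≠ a2 ∧ e3 ≠ a1) ∨ (e4 ≠ a3 ∧ e5 ≠ a2) ∨ (e6 ≠ a0 ∧ e7 ≠ a3) := by
  by_contra hcon
  simp only [not_or, not_and_or, not_not, ne_eq] at hcon
  obtain ⟨c1, c2, c3, c4⟩ := hcon
  grind

end Pool.Agent.Q272.NM
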