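import Pool.Agent.Q272.NM2

/-!
# Witnesses for the non-monotonicity of rainbow subgraphs: a colouring without rainbow `C_4`
-/

namespace Pool.Agent.Q272.NM

open Finset Vx

/-- adjacency of the core. -/
def coreAdj (i j : Fin 9) : Bool :=
  if i = 8 then j.val % 2 == 0 && j.val ≤ 6
  else if j = 8 then i.val % 2 == 0
  else (i.val + 1) % 8 == j.val || (j.val + 1) % 8 == i.val

/-- colour table of the core. -/
def tab (i j : Fin 9) : ℕ :=
  match i.val, j.val with
  | 8, 0 => 0
  | 0, 8 => 0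
  | 8, 2 => 1
  | 2, 8 => 1
  | 8, 4 => 2
  | 4, 8 => 2
  | 8, 6 => 3
  | 6, 8 => 3
  | 0, 1 => 1
  | 1, 0 => 1
  | 1, 2 => 0
  | 2, 1 => 0
  | 2, 3 => 2
  | 3, 2 => 2
  | 3, 4 => 1
  | 4, 3 => 1
  | 4, 5 => 3
  | 5, 4 => 3
  | 5, 6 => 2
  | 6, 5 => 2
  | 6, 7 => 0
  | 7, 6 => 0
  | 7, 0 => 3
  | 0, 7 => 3
  | _, _ => 0

theorem tab_symm : ∀ i j, tab i j = tab j i := by decide +kernel

theorem tab_lt : ∀ i j, tab i j < 4 := by decide +kernel

theorem tab_proper : ∀ i j l, coreAdj i j = true → coreAdj i l = true → j ≠ l →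
    tab i j ≠ tab i l := by decide +kernel

theorem tab_quad : ∀ i j l m, coreAdj i j = true → coreAdj j l = true → coreAdj l m = true →
    coreAdj m i = true → i ≠ l → j ≠ m → (tab i j = tab l m ∨ tab j l = tab m i) := by
  decide +kernel

theorem core_core {k : ℕ} {i j : Fin 9} (h : (wit k).Adj (core i) (core j)) :
    coreAdj i j = true := by
  obtain ⟨h1, d, hd⟩ := h
  rcases d_cases' d with h0 | h0 | h0 | h0 | ⟨h0, h01, h02, h03, h04, h0'⟩ <;>
  fin_cases i <;> simp [nb, coreNb, *] at hd h1 <;> first | (subst hd; decide) | skip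
  all_goals
    exact absurd hd h1

theorem leaf_nb {k : ℕ} {l : Fin k} {b : Vx k} (h : (wit k).Adj (leaf l) b) : b = core 8 := by
  obtain ⟨h1, d, hd⟩ := h
  simp only [nb] at hd
  split_ifs at hd
  · exact hd.symm
  · exact absurd hd h1

theorem core_leaf {k : ℕ} {l : Fin k} {i : Fin 9} (h : (wit k).Adj (core i) (leaf l)) :
    i = 8 := by
  have := leaf_nb h.symm
  simpa using this

theorem gad_leaf {k : ℕ} {l : Fin k} {s g u} (h : (wit k).Adj (gad s g u) (leaf l)) : False := by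
  have := leaf_nb h.symm
  simp at this

theorem gad_core {k : ℕ} {s g u} {i : Fin 9} (h : (wit k).Adj (gad s g u) (core i)) :
    allowed s g = true ∧ ((u = zero k ∧ i = port0 s) ∨ (u = flip g (zero k) ∧ i = port1 s)) := by
  obtain ⟨h1, d, hd⟩ := h
  simp only [nb] at hd
  split_ifs at hd with h2 h3
  · simp only [core.injEq] at hd
    exact ⟨h2.2.1, Or.inl ⟨h2.2.2, hd.symm⟩⟩
  · simp only [core.injEq] at hd
    exact ⟨h3.2.1, Or.inr ⟨h3.2.2, hd.symm⟩⟩

theorem gad_gad {k : ℕ} {s g u s' g' u'} (h : (wit k).Adj (gad s g u) (gad s' g' u')) :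
    s = s' ∧ g = g' ∧ ∃ d, u' = flip d u ∧ nb d (gad s g u) = gad s' g' u' ∧
      ¬ (d = g ∧ allowed s g = true ∧ (u = zero k ∨ u = flip g (zero k))) := by
  obtain ⟨h1, d, hd⟩ := h
  have hd' := hd
  simp only [nb] at hd
  split_ifs at hd with h2 h3
  simp only [gad.injEq] at hd
  refine ⟨hd.1, hd.2.1, d, hd.2.2.symm, hd', ?_⟩
  rintro ⟨h4, h5, h6 | h6⟩
  · exact h2 ⟨h4, h5, h6⟩
  · exact h3 ⟨h4, h5, h6⟩

/-- the second colouring. -/
def c2f {k : ℕ} (a b : Vx k) : ℕ :=
  match a, b with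
  | core i, core j => tab i j
  | core i, gad s g u => c1f (core i) (gad s g u) + (k + 4)
  | gad s g u, core i => c1f (gad s g u) (core i) + (k + 4)
  | core i, leaf l => c1f (core i) (leaf l)
  | leaf l, core i => c1f (leaf l) (core i)
  | leaf l, leaf l' => c1f (leaf l) (leaf l')
  | leaf l, gad s g u => c1f (leaf l) (gad s g u)
  | gad s g u, leaf l => c1f (gad s g u) (leaf l)
  | gad s g u, gad s' g' u' => c1f (gad s g u) (gad s' g' u')

theorem c2f_symm {k : ℕ} (a b : Vx k) : c2f a b = c2f b a := by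
  cases a <;> cases b <;> simp only [c2f]
  · exact tab_symm _ _
  · exact c1f_symm _ _
  · rw [c1f_symm]
  · exact c1f_symm _ _
  · exact c1f_symm _ _
  · exact c1f_symm _ _
  · rw [c1f_symm]
  · exact c1f_symm _ _
  · exact c1f_symm _ _

theorem c1f_proper {k : ℕ} {a b b' : Vx k} (h : (wit k).Adj a b) (h' : (wit k).Adj a b')
    (hne : b ≠ b') : c1f a b ≠ c1f a b' := by
  obtain ⟨h1, d, rfl⟩ := h
  obtain ⟨h2, e, rfl⟩ := h'
  rw [c1f_nb h1.symm, c1f_nb h2.symm]
  intro h
  exact hne (by rw [Fin.ext h])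

theorem c1f_lt {k : ℕ} {a b : Vx k} (h : (wit k).Adj a b) : c1f a b < k + 4 := by
  obtain ⟨h1, d, rfl⟩ := h
  rw [c1f_nb h1.symm]
  exact d.2

theorem c1f_leaf {k : ℕ} {l : Fin k} {i : Fin 9} (h : (wit k).Adj (core i) (leaf l)) :
    4 ≤ c1f (core i) (leaf l) := by
  rw [c1f_symm]
  obtain ⟨h1, d, hd⟩ := h.symm
  have h2 : nb d (leaf l) ≠ leaf l := by rw [hd]; exact h1.symm
  rw [← hd, c1f_nb h2]
  simp only [nb] at h2
  split_ifs at h2 with h3
  · omega
  · exact absurd rfl h2

theorem c2f_proper {k : ℕ} {a b b' : Vx k} (h : (wit k).Adj a b) (h' : (wit k).Adj a b')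
    (hne : b ≠ b') : c2f a b ≠ c2f a b' := by
  have hp := c1f_proper h h' hne
  have hl := c1f_lt h
  have hl' := c1f_lt h'
  rcases a with i | l | ⟨s, g, u⟩
  · rcases b with j | l | ⟨s', g', u'⟩ <;> rcases b' with j' | l' | ⟨s'', g'', u''⟩ <;>
      simp only [c2f]
    · exact tab_proper i j j' (core_core h) (core_core h') (by simpa using hne)
    · have := tab_lt i j
      have := c1f_leaf h'
      omega
    · have := tab_lt i j
      omega
    · have := tab_lt i j'
      have := c1f_leaf h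
      omega
    · exact hp
    · omega
    · have := tab_lt i j'
      omega
    · omega
    · omega
  · exact absurd ((leaf_nb h).trans (leaf_nb h').symm) hne
  · rcases b with j | l | ⟨s', g', u'⟩ <;> rcases b' with j' | l' | ⟨s'', g'', u''⟩ <;>
      simp only [c2f] <;> omega

theorem port_ne (s : Bool) : port0 s ≠ port1 s := by cases s <;> decide

/-- no `4`-cycle passes from a gadget to the core. -/
theorem no_mixed {k : ℕ} {a b c d : Vx k} (h1 : (wit k).Adj a b) (h2 : (wit k).Adj b c)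
    (h3 : (wit k).Adj c d) (h4 : (wit k).Adj d a) (hac : a ≠ c) (hbd : b ≠ d)
    {s g u i} (ha : a = gad s g u) (hb : b = core i) : False := by
  subst ha hb
  obtain ⟨hal, hu⟩ := gad_core h1
  rcases d with j | l | ⟨s', g', u'⟩
  · obtain ⟨-, hu'⟩ := gad_core h4.symm
    apply hbd
    congr 1
    rcases hu with ⟨e1, e2⟩ | ⟨e1, e2⟩ <;> rcases hu' with ⟨f1, f2⟩ | ⟨f1, f2⟩
    · rw [e2, f2]
    · exact absurd (e1.symm.trans f1) (zero_ne_flip g)
    · exact absurd (f1.symm.trans e1) (zero_ne_flip g)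
    · rw [e2, f2]
  · exact gad_leaf h4.symm
  · obtain ⟨rfl, rfl, e, he, -, hne⟩ := gad_gad h4.symm
    rcases c with j | l | ⟨s'', g'', u''⟩
    · obtain ⟨-, hu'⟩ := gad_core h3.symm
      apply hne
      have key : flip e u = flip g u → e = g := fun h => flip_inj h
      rcases hu with ⟨e1, e2⟩ | ⟨e1, e2⟩ <;> rcases hu' with ⟨f1, f2⟩ | ⟨f1, f2⟩
      · exact absurd (he.symm.trans (f1.trans e1.symm)) (flip_ne e u)
      · refine ⟨key ?_, hal, Or.inl e1⟩
        rw [← he, f1, e1]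
      · refine ⟨key ?_, hal, Or.inr e1⟩
        rw [← he, f1, e1, flip_flip]
      · exact absurd (he.symm.trans (f1.trans e1.symm)) (flip_ne e u)
    · exact gad_leaf h3.symm
    · obtain ⟨rfl, rfl, -⟩ := gad_gad h3
      obtain ⟨-, hu'⟩ := gad_core h2.symm
      apply hac
      congr 1
      rcases hu with ⟨e1, e2⟩ | ⟨e1, e2⟩ <;> rcases hu' with ⟨f1, f2⟩ | ⟨f1, f2⟩
      · rw [e1, f1]
      · exact absurd (e2.symm.trans f2) (port_ne s'')
      · exact absurd (f2.symm.trans e2) (port_ne s'')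
      · rw [e1, f1]

/-- the second colouring has no rainbow `4`-cycle. -/
theorem no_rainbow {k : ℕ} {a b c d : Vx k} (h1 : (wit k).Adj a b) (h2 : (wit k).Adj b c)
    (h3 : (wit k).Adj c d) (h4 : (wit k).Adj d a) (hac : a ≠ c) (hbd : b ≠ d)
    (r1 : c2f a b ≠ c2f b c) (r2 : c2f a b ≠ c2f c d) (r3 : c2f a b ≠ c2f d a)
    (r4 : c2f b c ≠ c2f d a) : False := by
  rcases a with i | l | ⟨s, g, u⟩
  · rcases b with j | l | ⟨s', g', u'⟩
    · rcases c with m | l | ⟨s', g', u'⟩
      · rcases d with n | l | ⟨s', g', u'⟩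
        · simp only [c2f] at r2 r4
          rcases tab_quad i j m n (core_core h1) (core_core h2) (core_core h3) (core_core h4)
            (by simpa using hac) (by simpa using hbd) with h | h
          · exact r2 h
          · exact r4 h
        · exact hac ((leaf_nb h4).trans (leaf_nb h3.symm).symm)
        · exact no_mixed h4 h1 h2 h3 hbd.symm hac rfl rfl
      · exact hbd ((leaf_nb h2.symm).trans (leaf_nb h3).symm)
      · exact no_mixed h2.symm h1.symm h4.symm h3.symm hac.symm hbd rfl rfl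
    · exact hac ((leaf_nb h1.symm).trans (leaf_nb h2).symm)
    · exact no_mixed h1.symm h4.symm h3.symm h2.symm hbd hac rfl rfl
  · exact hbd ((leaf_nb h1).trans (leaf_nb h4.symm).symm)
  · rcases b with j | l | ⟨s1, g1, u1⟩
    · exact no_mixed h1 h2 h3 h4 hac hbd rfl rfl
    · exact gad_leaf h1
    · rcases c with j | l | ⟨s2, g2, u2⟩
      · exact no_mixed h2 h3 h4 h1 hbd hac.symm rfl rfl
      · exact gad_leaf h2
      · rcases d with j | l | ⟨s3, g3, u3⟩
        · exact no_mixed h4.symm h3.symm h2.symm h1.symm hac hbd.symm rfl rfl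
        · exact gad_leaf h3
        · obtain ⟨rfl, rfl, d0, e0, f0, -⟩ := gad_gad h1
          obtain ⟨rfl, rfl, d1, e1, f1, -⟩ := gad_gad h2
          obtain ⟨rfl, rfl, d2, e2, f2, -⟩ := gad_gad h3
          obtain ⟨-, -, d3, e3, f3, -⟩ := gad_gad h4
          simp only [c2f] at r1 r2 r3
          rw [← f0, c1f_nb (gad_full _ _ _ _), f0, ← f1, c1f_nb (gad_full _ _ _ _)] at r1
          rw [← f0, c1f_nb (gad_full _ _ _ _), ← f2, c1f_nb (gad_full _ _ _ _)] at r2
          rw [← f0, c1f_nb (gad_full _ _ _ _), ← f3, c1f_nb (gad_full _ _ _ _)] at r3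
          have g1 : d0 ≠ d1 := fun h => r1 (by rw [h])
          have g2 : d0 ≠ d2 := fun h => r2 (by rw [h])
          have g3 : d0 ≠ d3 := fun h => r3 (by rw [h])
          have := congrFun e3 d0
          rw [flip_apply_ne g3, e2, flip_apply_ne g2, e1, flip_apply_ne g1, e0,
            flip_apply_self] at this
          simp at this

end Pool.Agent.Q272.NM
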